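import Pool.Agent.helper86.OF.SpecL

/-!
# of:BER, Hoeffding's inequality for random subsets
-/

open scoped BigOperators

namespace Pool.Agent.OF

open Classical

theorem BER_mgf {p l : ℝ} (hp : 0 ≤ p) (hp1 : p ≤ 1) :
    (1 - p + p * Real.exp l) * Real.exp (-(l * p)) ≤ Real.exp (l ^ 2 / 2) := by
  have h1 : Real.exp (-(l * p)) ≤ 1 - p + p * Real.exp (-l) := by
    have h := convexOn_exp.2 (Set.mem_univ (0 : ℝ)) (Set.mem_univ (-l)) (sub_nonneg.2 hp1) hp
      (by ring)
    simp only [smul_eq_mul, mul_zero, zero_add, Real.exp_zero, mul_one] at h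
    have e : p * -l = -(l * p) := by ring
    rw [e] at h
    exact h
  have h0 : 0 ≤ 1 - p + p * Real.exp l :=
    add_nonneg (sub_nonneg.2 hp1) (mul_nonneg hp (Real.exp_pos l).le)
  have h2 : (1 - p + p * Real.exp l) * (1 - p + p * Real.exp (-l)) ≤ Real.cosh l := by
    have h3 : Real.exp l * Real.exp (-l) = 1 := by
      rw [← Real.exp_add, add_neg_cancel, Real.exp_zero]
    have h4 : (1 : ℝ) ≤ Real.cosh l := Real.one_le_cosh l
    have h5 : Real.exp l + Real.exp (-l) = 2 * Real.cosh l := by
      rw [Real.cosh_eq]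
      ring
    have h6 : (1 - p + p * Real.exp l) * (1 - p + p * Real.exp (-l)) =
        1 - 2 * (p * (1 - p)) + 2 * (p * (1 - p)) * Real.cosh l := by
      have : (1 - p + p * Real.exp l) * (1 - p + p * Real.exp (-l)) =
          (1 - p) ^ 2 + p ^ 2 * (Real.exp l * Real.exp (-l)) +
            p * (1 - p) * (Real.exp l + Real.exp (-l)) := by ring
      rw [this, h3, h5]
      ring
    have h7 : 2 * (p * (1 - p)) ≤ 1 := by nlinarith [sq_nonneg (2 * p - 1)]
    rw [h6]
    nlinarith [mul_nonneg (sub_nonneg.2 h7) (sub_nonneg.2 h4)]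
  calc (1 - p + p * Real.exp l) * Real.exp (-(l * p))
      ≤ (1 - p + p * Real.exp l) * (1 - p + p * Real.exp (-l)) := mul_le_mul_of_nonneg_left h1 h0
    _ ≤ Real.cosh l := h2
    _ ≤ Real.exp (l ^ 2 / 2) := Real.cosh_le_exp_half_sq l

theorem BER_prod (E : Type) [Fintype E] (p l : ℝ) (E' : Finset E) :
    ∑ R : Finset E, p ^ R.card * (1 - p) ^ (Fintype.card E - R.card) *
      Real.exp (l * ((R ∩ E').card : ℕ)) = (1 - p + p * Real.exp l) ^ E'.card := by
  have h := Finset.prod_add (fun i => p * (if i ∈ E' then Real.exp l else 1)) (fun _ => 1 - p)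
    (Finset.univ : Finset E)
  rw [Finset.powerset_univ] at h
  have hl : ∏ i : E, (p * (if i ∈ E' then Real.exp l else 1) + (1 - p)) =
      (1 - p + p * Real.exp l) ^ E'.card := by
    have e1 : ∀ i : E, (p * (if i ∈ E' then Real.exp l else 1) + (1 - p)) =
        if i ∈ E' then (1 - p + p * Real.exp l) else 1 := by
      intro i
      split_ifs <;> ring
    simp only [e1]
    rw [Finset.prod_ite_mem, Finset.univ_inter, Finset.prod_const]
  rw [← hl, h]
  apply Finset.sum_congr rfl
  intro R _
  rw [Finset.prod_mul_distrib, Finset.prod_const, Finset.prod_ite_mem, Finset.prod_const,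
    Finset.prod_const, Finset.card_sdiff_of_subset (Finset.subset_univ R), Finset.card_univ,
    ← Real.exp_nat_mul, mul_comm l]
  ring

theorem BER : BER_stmt := by
  intro E _ p t B hp hp1 ht hB E' hE'
  have hM : ∀ l : ℝ, ∑ R : Finset E, p ^ R.card * (1 - p) ^ (Fintype.card E - R.card) *
      Real.exp (l * ((((R ∩ E').card : ℕ) : ℝ) - p * E'.card)) ≤ Real.exp (l ^ 2 / 2 * B) := by
    intro l
    have e1 : ∑ R : Finset E, p ^ R.card * (1 - p) ^ (Fintype.card E - R.card) *
        Real.exp (l * ((((R ∩ E').card : ℕ) : ℝ) - p * E'.card)) =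
        ((1 - p + p * Real.exp l) * Real.exp (-(l * p))) ^ E'.card := by
      rw [mul_pow, ← BER_prod E p l E', Finset.sum_mul]
      apply Finset.sum_congr rfl
      intro R _
      rw [mul_assoc (p ^ R.card * (1 - p) ^ (Fintype.card E - R.card)), ← Real.exp_nat_mul,
        ← Real.exp_add]
      congr 2
      ring
    rw [e1]
    calc ((1 - p + p * Real.exp l) * Real.exp (-(l * p))) ^ E'.card
        ≤ (Real.exp (l ^ 2 / 2)) ^ E'.card := by
          apply pow_le_pow_left₀ _ (BER_mgf hp hp1)
          exact mul_nonneg (add_nonneg (sub_nonneg.2 hp1) (mul_nonneg hp (Real.exp_pos l).le))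
            (Real.exp_pos _).le
      _ = Real.exp (l ^ 2 / 2 * E'.card) := by rw [← Real.exp_nat_mul, mul_comm]
      _ ≤ Real.exp (l ^ 2 / 2 * B) := by
          apply Real.exp_le_exp.2
          exact mul_le_mul_of_nonneg_left hE' (by positivity)
  have hw : ∀ R : Finset E, 0 ≤ p ^ R.card * (1 - p) ^ (Fintype.card E - R.card) := fun R =>
    mul_nonneg (pow_nonneg hp _) (pow_nonneg (sub_nonneg.2 hp1) _)
  set l : ℝ := t / B with hl
  have hl0 : 0 < l := div_pos ht hB
  have hval : -(l * t) + l ^ 2 / 2 * B = -(t ^ 2 / (2 * B)) := by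
    rw [hl]
    field_simp
    ring
  calc ∑ R ∈ (Finset.univ : Finset (Finset E)).filter
        (fun R => t < |(((R ∩ E').card : ℕ) : ℝ) - p * E'.card|),
      p ^ R.card * (1 - p) ^ (Fintype.card E - R.card)
      ≤ ∑ R ∈ (Finset.univ : Finset (Finset E)).filter
        (fun R => t < |(((R ∩ E').card : ℕ) : ℝ) - p * E'.card|),
          (p ^ R.card * (1 - p) ^ (Fintype.card E - R.card) *
            (Real.exp (-(l * t)) * (Real.exp (l * ((((R ∩ E').card : ℕ) : ℝ) - p * E'.card)) +
              Real.exp (-l * ((((R ∩ E').card : ℕ) : ℝ) - p * E'.card))))) := by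
        apply Finset.sum_le_sum
        intro R hR
        rw [Finset.mem_filter] at hR
        have hR2 := hR.2
        apply le_mul_of_one_le_right (hw R)
        rw [mul_add, ← Real.exp_add, ← Real.exp_add]
        rcases lt_abs.1 hR2 with h | h
        · have : 1 ≤ Real.exp (-(l * t) + l * ((((R ∩ E').card : ℕ) : ℝ) - p * E'.card)) := by
            apply Real.one_le_exp
            nlinarith
          linarith [Real.exp_pos (-(l * t) + -l * ((((R ∩ E').card : ℕ) : ℝ) - p * E'.card))]
        · have : 1 ≤ Real.exp (-(l * t) + -l * ((((R ∩ E').card : ℕ) : ℝ) - p * E'.card)) := by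
            apply Real.one_le_exp
            nlinarith
          linarith [Real.exp_pos (-(l * t) + l * ((((R ∩ E').card : ℕ) : ℝ) - p * E'.card))]
    _ ≤ ∑ R : Finset E, (p ^ R.card * (1 - p) ^ (Fintype.card E - R.card) *
            (Real.exp (-(l * t)) * (Real.exp (l * ((((R ∩ E').card : ℕ) : ℝ) - p * E'.card)) +
              Real.exp (-l * ((((R ∩ E').card : ℕ) : ℝ) - p * E'.card))))) := by
        apply Finset.sum_le_sum_of_subset_of_nonneg (Finset.filter_subset _ _)
        intro R _ _
        exact mul_nonneg (hw R) (by positivity)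
    _ = Real.exp (-(l * t)) * (∑ R : Finset E, p ^ R.card * (1 - p) ^ (Fintype.card E - R.card) *
          Real.exp (l * ((((R ∩ E').card : ℕ) : ℝ) - p * E'.card)) +
          ∑ R : Finset E, p ^ R.card * (1 - p) ^ (Fintype.card E - R.card) *
          Real.exp (-l * ((((R ∩ E').card : ℕ) : ℝ) - p * E'.card))) := by
        rw [← Finset.sum_add_distrib, Finset.mul_sum]
        apply Finset.sum_congr rfl
        intro R _
        ring
    _ ≤ Real.exp (-(l * t)) * (Real.exp (l ^ 2 / 2 * B) + Real.exp (l ^ 2 / 2 * B)) := by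
        apply mul_le_mul_of_nonneg_left _ (Real.exp_pos _).le
        have e1 := hM l
        have e2 := hM (-l)
        rw [neg_sq] at e2
        exact add_le_add e1 e2
    _ = 2 * Real.exp (-(t ^ 2 / (2 * B))) := by
        rw [← hval, Real.exp_add]
        ring

end Pool.Agent.OF
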