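import Pool.Agent.helper86.OF.SpecB

open scoped BigOperators

namespace Pool.Agent.OF

noncomputable section

open Classical

theorem BLM (h5 : BL5_stmt) (h7 : BL7_stmt) (h8 : BL8_stmt) : BLM_stmt := by
  intro V _ K X D p x0 y0 r B hB hex
  by_cases hG : GoodC K X D p
  · exact Or.inl hG
  · right
    obtain ⟨c, α, hmin⟩ := h5 V K X D p x0 y0 r B hB hG hex
    obtain ⟨hpar, _, hor⟩ := h7 V K X D p x0 y0 r B c α hB hG hmin
    rcases hor with ⟨κ, hκ, hκα, h3⟩ | hsum
    · exact absurd (h8 V K X D p x0 y0 r B c α κ hB hG hmin hκ hκα) (by omega)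
    · refine ⟨Qs K X x0 y0 c α, ?_, hpar, hsum⟩
      rw [Finset.disjoint_left]
      intro z hz
      simp only [Qs, Finset.mem_filter] at hz
      exact hz.2.1

end

end Pool.Agent.OF
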