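import Pool.Agent.helper86.OF.SpecL

/-!
# of:LGC, edge colourings and colourings of the line graph
-/

namespace Pool.Agent.OF

open Classical

theorem LGC : LGC_stmt := by
  intro V _ G D
  constructor
  · rintro ⟨c, h1, h2⟩
    have hlt : ∀ e : G.edgeSet, c e < D := by
      rintro ⟨e, he⟩
      induction e using Sym2.ind with
      | _ v w => exact h1 v w he
    refine ⟨SimpleGraph.Coloring.mk (fun e => (⟨c e, hlt e⟩ : Fin D)) ?_⟩
    rintro ⟨e, he⟩ ⟨f, hf⟩ hef heq
    obtain ⟨hne, v, hv1, hv2⟩ := hef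
    have heq' : c e = c f := congrArg Fin.val heq
    apply hne
    have hv1' : v ∈ e := hv1
    have hv2' : v ∈ f := hv2
    obtain ⟨w, rfl⟩ := hv1'
    obtain ⟨w', rfl⟩ := hv2'
    have := h2 v w w' he hf heq'
    subst this
    rfl
  · rintro ⟨C⟩
    refine ⟨fun e => if h : e ∈ G.edgeSet then ((C ⟨e, h⟩ : Fin D) : ℕ) else 0, ?_, ?_⟩
    · intro v w h
      have h' : s(v, w) ∈ G.edgeSet := h
      simp only [dif_pos h']
      exact (C ⟨s(v, w), h'⟩).2
    · intro v w w' h h' heq
      have e1 : s(v, w) ∈ G.edgeSet := h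
      have e2 : s(v, w') ∈ G.edgeSet := h'
      simp only [dif_pos e1, dif_pos e2] at heq
      by_contra hne
      have hadj : G.lineGraph.Adj ⟨s(v, w), e1⟩ ⟨s(v, w'), e2⟩ := by
        refine ⟨?_, v, ?_, ?_⟩
        · intro h3
          have h4 : s(v, w) = s(v, w') := congrArg Subtype.val h3
          rw [Sym2.congr_right] at h4
          exact hne h4
        · exact Sym2.mem_mk_left v w
        · exact Sym2.mem_mk_left v w'
      exact C.valid hadj (Fin.ext heq)

end Pool.Agent.OF
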